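import Pool.Agent.H28.RC.Targets3
import Pool.Agent.H28.RC.Interface

/-!
# RCF: Artin reciprocity for the fixed fields
-/

set_option autoImplicit false

namespace Pool.Agent.H84.RC

open Pool.Agent.H28.RC

theorem rs_mem {K : Type} [Field K] [NumberField K] [IsGalois ℚ K] (H : Subgroup (K ≃ₐ[ℚ] K))
    (h : K ≃ₐ[IntermediateField.fixedField H] K) : h.restrictScalars ℚ ∈ H := by
  have h1 : h.restrictScalars ℚ ∈
      IntermediateField.fixingSubgroup (IntermediateField.fixedField H) := by
    rw [IntermediateField.mem_fixingSubgroup_iff]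
    intro x hx
    exact h.commutes ⟨x, hx⟩
  rwa [IntermediateField.fixingSubgroup_fixedField] at h1

theorem pf_RCF : T_RC1 → T_RC2 → T_REC := by
  intro h1 h2 K _ _ _ H lam
  let μ : (K ≃ₐ[IntermediateField.fixedField H] K) →* ℂˣ :=
    { toFun := fun h => lam ⟨h.restrictScalars ℚ, rs_mem H h⟩
      map_one' := by
        have e : (⟨(1 : K ≃ₐ[IntermediateField.fixedField H] K).restrictScalars ℚ,
          rs_mem H 1⟩ : H) = 1 := Subtype.ext (AlgEquiv.ext fun _ => rfl)
        rw [e, map_one]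
      map_mul' := fun g h => by
        have e : (⟨(g * h).restrictScalars ℚ, rs_mem H (g * h)⟩ : H) =
            ⟨g.restrictScalars ℚ, rs_mem H g⟩ * ⟨h.restrictScalars ℚ, rs_mem H h⟩ :=
          Subtype.ext (AlgEquiv.ext fun _ => rfl)
        rw [e, map_mul] }
  obtain ⟨χ, B, hm, hB⟩ := h1 (IntermediateField.fixedField H) K μ
  obtain ⟨B', hB'⟩ := h2 K H lam χ B (fun P hP hP0 hp h _ hF => hB P hP hP0 hp h hF)
  exact ⟨χ, B', hm, hB'⟩

end Pool.Agent.H84.RC
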